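import Mathlib

namespace Pool.Agent.H.MP_7fc841_nt

open Finset

def K (M : ℕ) : ℤ := (M - 1) * (2 * M - 1)
def b3 (M : ℕ) : ℤ := 6 * (2 * M).choose 5 - 6 * (M - 1) * (2 * M).choose 4 + K M * (2 * M).choose 3

lemma chQ (m i : ℕ) : (m.choose (i + 1) : ℚ) = m.choose i * (m - i) / (i + 1) := by
  rcases lt_or_ge m i with h | h
  · simp [Nat.choose_eq_zero_of_lt h, Nat.choose_eq_zero_of_lt (show m < i + 1 by omega)]
  · have := congrArg (Nat.cast : ℕ → ℚ) (Nat.choose_succ_right_eq m i)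
    rw [Nat.cast_mul, Nat.cast_mul, Nat.cast_sub h] at this
    rw [← this]; push_cast; field_simp

lemma ids (M : ℕ) : ((2 * M).choose 2 : ℤ) = M * (2 * M - 1) ∧
    6 * ((2 * M).choose 3 : ℤ) - 6 * (M - 1) * (2 * M).choose 2 + K M * (2 * M) = 0 ∧
    6 * ((2 * M).choose 4 : ℤ) - 6 * (M - 1) * (2 * M).choose 3 + K M * (2 * M).choose 2 = 0 ∧
    2 * (6 * ((2 * M).choose 6 : ℤ) - 6 * (M - 1) * (2 * M).choose 5 + K M * (2 * M).choose 4) =
      (2 * M - 3) * b3 M := by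
  refine ⟨?_, ?_, ?_, ?_⟩ <;> apply Int.cast_injective (α := ℚ) <;>
    push_cast [b3, K] <;> simp only [chQ, Nat.choose_zero_right] <;> push_cast <;> ring

variable {A : Type*} [CommRing A]

lemma expand (m : ℕ) (x : A) : ∃ ρ, (1 + x) ^ m = 1 + m * x + m.choose 2 * x ^ 2 + m.choose 3 * x ^ 3
    + m.choose 4 * x ^ 4 + m.choose 5 * x ^ 5 + m.choose 6 * x ^ 6 + x ^ 7 * ρ := by
  induction m with
  | zero => exact ⟨0, by simp [Nat.choose]⟩
  | succ m ih =>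
    obtain ⟨ρ, h⟩ := ih
    refine ⟨ρ * (1 + x) + m.choose 6, ?_⟩
    rw [pow_succ, h]
    simp only [Nat.choose_succ_succ, Nat.succ_eq_add_one]
    simp
    ring

lemma step (M : ℕ) (x : A) : ∃ ρ, ∀ j t n : A, M * t = n → j * x = -t →
    2 * ((6 * j ^ 2 + 6 * t * (M - 1) * j + t ^ 2 * K M) * (1 + x) ^ (2 * M) -
      (6 * (j - 1) ^ 2 + 6 * t * (M - 1) * (j - 1) + t ^ 2 * K M)) =
    12 * (1 - n) * (2 * (j - 1) + 1 - t) +
      t ^ 2 * (b3 M * (2 * x ^ 3 + (2 * M - 3) * x ^ 4) + x ^ 5 * ρ) := by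
  obtain ⟨ρ, h⟩ := expand (2 * M) x
  obtain ⟨i0, i1, i2, i3⟩ := ids M
  have i0 := congrArg (Int.cast : ℤ → A) i0
  have i1 := congrArg (Int.cast : ℤ → A) i1
  have i2 := congrArg (Int.cast : ℤ → A) i2
  have i3 := congrArg (Int.cast : ℤ → A) i3
  have i4 : (b3 M : A) = 6 * (2 * M).choose 5 - 6 * (M - 1) * (2 * M).choose 4 +
    K M * (2 * M).choose 3 := by simp [b3]
  have i5 : (K M : A) = (M - 1) * (2 * M - 1) := by simp [K]
  refine ⟨2 * (6 * ρ - 6 * (M - 1) * ((2 * M).choose 6 + x * ρ) +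
    K M * ((2 * M).choose 5 + (2 * M).choose 6 * x + x ^ 2 * ρ)), fun j t n hn hj => ?_⟩
  obtain rfl : t = -(j * x) := by rw [hj, neg_neg]
  subst hn
  rw [h]
  push_cast at i0 i1 i2 i3 ⊢
  linear_combination (2 * j ^ 2 * x ^ 3) * i1 + (2 * j ^ 2 * x ^ 4) * i2 + (j ^ 2 * x ^ 6) * i3
    - (2 * j ^ 2 * x ^ 5) * i4 + (12 * j ^ 2 * x ^ 2) * i0 + (2 * j ^ 2 * x ^ 2) * i5 * 0

def c (M : ℕ) (x : ℕ → A) (k : ℕ) : A := ∏ j ∈ range k, (1 + x (j + 1)) ^ (2 * M)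

lemma key (M N : ℕ) (x : ℕ → A) (t : A) (hM : M * t = N + 1)
    (hx : ∀ j < N, (j + 1) * x (j + 1) = -t) : ∃ ρ : ℕ → A,
    12 * (-N) * ∑ k ∈ range (N + 1), (2 * k + 1 - t) * c M x k =
      t ^ 2 * (2 * K M * (c M x N - 1) -
        b3 M * ∑ k ∈ range N, c M x k * (2 * x (k + 1) ^ 3 + (2 * M - 3) * x (k + 1) ^ 4) -
        ∑ k ∈ range N, x (k + 1) ^ 5 * ρ k) := by
  choose ρ hρ using step (A := A) M
  refine ⟨fun k => c M x k * ρ (x (k + 1)), ?_⟩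
  have h := sum_range_sub (fun k : ℕ => 2 * ((6 * (k : A) ^ 2 + 6 * t * (M - 1) * k + t ^ 2 * K M) *
    c M x k)) N
  rw [sum_congr rfl fun k hk => show _ = 12 * (-N) * ((2 * k + 1 - t) * c M x k) + t ^ 2 *
    (b3 M * (c M x k * (2 * x (k + 1) ^ 3 + (2 * M - 3) * x (k + 1) ^ 4)) +
      x (k + 1) ^ 5 * (c M x k * ρ (x (k + 1)))) by
    have := hρ (x (k + 1)) (k + 1) t (N + 1) hM (hx k (mem_range.1 hk))
    rw [show c M x (k + 1) = c M x k * (1 + x (k + 1)) ^ (2 * M) from prod_range_succ _ _]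
    push_cast
    linear_combination c M x k * this] at h
  rw [sum_add_distrib, ← mul_sum, ← mul_sum, sum_add_distrib, ← mul_sum,
    show c M x 0 = 1 from rfl] at h
  rw [sum_range_succ]
  push_cast at h
  linear_combination h + 12 * N * c M x N * hM

lemma prod_one_add (π : A) (z : ℕ → A) (N : ℕ) (hz : ∀ j < N, π ^ 2 ∣ z j) :
    π ^ 4 ∣ ∏ j ∈ range N, (1 + z j) - 1 - ∑ j ∈ range N, z j := by
  induction N with
  | zero => simp
  | succ N ih =>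
    obtain ⟨u, hu⟩ := ih fun j hj => hz j (by omega)
    obtain ⟨v, hv⟩ := hz N (by omega)
    obtain ⟨w, hw⟩ : π ^ 2 ∣ ∑ j ∈ range N, z j :=
      dvd_sum fun j hj => hz j (by have := mem_range.1 hj; omega)
    rw [prod_range_succ, sum_range_succ]
    exact ⟨u * (1 + z N) + w * v, by
      linear_combination (1 + z N) * hu + z N * hw + π ^ 2 * w * hv⟩

lemma sum_par (f : ℕ → A) (h : ℕ) :
    ∑ j ∈ range (2 * h), f j = ∑ i ∈ range h, f (2 * i) + ∑ i ∈ range h, f (2 * i + 1) := by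
  induction h with
  | zero => simp
  | succ h ih => rw [mul_add, mul_one, sum_range_succ, sum_range_succ, sum_range_succ,
      sum_range_succ, ih]; ring

structure Data (π : A) (M h : ℕ) (x : ℕ → A) (t : A) : Prop where
  hM : M * t = (2 * h : ℕ) + 1
  hx : ∀ j < 2 * h, (j + 1) * x (j + 1) = -t
  hd : ∀ j < 2 * h, π ∣ x (j + 1)
  u6 : IsUnit (6 : A)

variable [IsDomain A] [CharZero A] {π t : A} {M h : ℕ} {x : ℕ → A}

lemma Data.refl (D : Data π M h x t) (j : ℕ) (hj : j < 2 * h) :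
    x (j + 1) + x (2 * h - 1 - j + 1) = -M * (x (j + 1) * x (2 * h - 1 - j + 1)) := by
  have h1 := D.hx j hj
  have h2 := D.hx (2 * h - 1 - j) (by omega)
  have h3 := D.hM
  have t0 : t ≠ 0 := by
    rintro rfl
    rw [mul_zero] at h3
    exact Nat.cast_add_one_ne_zero _ h3.symm
  rw [Nat.cast_sub (by omega), Nat.cast_sub (by omega)] at h2
  apply mul_left_cancel₀ t0
  push_cast at h2 h3
  linear_combination x (2 * h - 1 - j + 1) * h1 + x (j + 1) * h2 +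
    x (j + 1) * x (2 * h - 1 - j + 1) * h3

lemma Data.sq (D : Data π M h x t) (j : ℕ) (hj : j < 2 * h) :
    π ^ 3 ∣ x (2 * h - 1 - j + 1) ^ 2 - x (j + 1) ^ 2 := by
  have := D.refl j hj
  obtain ⟨a, ha⟩ := D.hd j hj
  obtain ⟨b, hb⟩ := D.hd (2 * h - 1 - j) (by omega)
  rw [ha, hb] at this ⊢
  exact ⟨-M * a * b * (b - a), by linear_combination π * (b - a) * this⟩

lemma Data.W (D : Data π M h x t) : π ^ 3 ∣ ∑ j ∈ range (2 * h), x (j + 1) ^ 2 := by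
  have e1 : π ^ 3 ∣ ∑ i ∈ range h, x (2 * i + 1 + 1) ^ 2 - ∑ i ∈ range h, x (2 * i + 1) ^ 2 := by
    rw [← sum_range_reflect, ← sum_sub_distrib]
    refine dvd_sum fun i hi => ?_
    have hi := mem_range.1 hi
    rw [show 2 * (h - 1 - i) + 1 = 2 * h - 1 - 2 * i by omega]
    exact D.sq (2 * i) (by omega)
  have e2 : π ^ 3 ∣ ∑ i ∈ range h, x (h + i + 1) ^ 2 - ∑ i ∈ range h, x (i + 1) ^ 2 := by
    rw [← sum_range_reflect, ← sum_sub_distrib]
    refine dvd_sum fun i hi => ?_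
    have hi := mem_range.1 hi
    rw [show h + (h - 1 - i) = 2 * h - 1 - i by omega]
    exact D.sq i (by omega)
  have e3 : ∑ i ∈ range h, x (i + 1) ^ 2 = 4 * ∑ i ∈ range h, x (2 * i + 1 + 1) ^ 2 := by
    rw [mul_sum]
    refine sum_congr rfl fun i hi => ?_
    have hi := mem_range.1 hi
    have h1 := D.hx i (by omega)
    have h2 := D.hx (2 * i + 1) (by omega)
    have : x (i + 1) = 2 * x (2 * i + 1 + 1) := by
      apply mul_left_cancel₀ (Nat.cast_add_one_ne_zero i)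
      push_cast at h2
      linear_combination h1 - h2
    rw [this]; ring
  have s1 := sum_par (fun j => x (j + 1) ^ 2) h
  have s2 := sum_range_add (fun j => x (j + 1) ^ 2) h h
  rw [← two_mul] at s2
  obtain ⟨a, ha⟩ := e1
  obtain ⟨b, hb⟩ := e2
  refine (D.u6.dvd_mul_left).1 ⟨-8 * a - 2 * b, ?_⟩
  linear_combination 8 * s1 - 2 * s2 - 8 * ha - 2 * hb - 4 * e3

lemma Data.cN (D : Data π M h x t) :
    ∃ u v w, c M x (2 * h) - 1 = (π ^ 4 * u + (M - 1) * π ^ 3 * v) * w := by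
  obtain ⟨u, hu⟩ := prod_one_add π (fun j => (1 - M) * (x (j + 1) * x (2 * h - 1 - j + 1))) (2 * h)
    fun j hj => Dvd.dvd.mul_left (by rw [pow_two]; exact mul_dvd_mul (D.hd j hj) (D.hd _ (by omega))) _
  obtain ⟨v, hv⟩ : π ^ 3 ∣ ∑ j ∈ range (2 * h), x (j + 1) * x (2 * h - 1 - j + 1) := by
    rw [← dvd_add_left D.W, ← sum_add_distrib]
    refine dvd_sum fun j hj => ?_
    have hj := mem_range.1 hj
    have := D.refl j hj
    obtain ⟨a, ha⟩ := D.hd j hj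
    obtain ⟨b, hb⟩ := D.hd (2 * h - 1 - j) (by omega)
    rw [ha, hb] at this ⊢
    exact ⟨-M * a * b * a, by linear_combination π * a * this⟩
  rw [← mul_sum, hv] at hu
  have e : c M x (2 * h) = (∏ j ∈ range (2 * h),
      (1 + (1 - M) * (x (j + 1) * x (2 * h - 1 - j + 1)))) ^ M := by
    rw [c, prod_pow, pow_mul, pow_two]
    nth_rewrite 2 [← prod_range_reflect]
    rw [← prod_mul_distrib]
    congr 1
    exact prod_congr rfl fun j hj => by linear_combination D.refl j (mem_range.1 hj)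
  obtain ⟨w, hw⟩ := sub_one_dvd_pow_sub_one (∏ j ∈ range (2 * h),
      (1 + (1 - M) * (x (j + 1) * x (2 * h - 1 - j + 1)))) M
  exact ⟨u, -v, w, by rw [e, hw]; linear_combination w * hu⟩

lemma Data.thm1 (D : Data π M h x t) :
    t ^ 2 * π ^ 3 ∣ (2 * h : ℕ) * ∑ k ∈ range (2 * h + 1), (2 * k + 1 - t) * c M x k := by
  obtain ⟨ρ, hρ⟩ := key M (2 * h) x t D.hM D.hx
  obtain ⟨u, v, w, hc⟩ := D.cN
  have u12 : IsUnit (-12 : A) := by
    refine isUnit_of_dvd_unit ⟨-3, ?_⟩ (D.u6.mul D.u6); norm_num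
  rw [← u12.dvd_mul_left, show ∀ a b : A, -12 * (a * b) = 12 * (-a) * b from fun _ _ => by ring, hρ]
  refine mul_dvd_mul_left _ (dvd_sub (dvd_sub ⟨2 * K M * (π * u + (M - 1) * v) * w, by
    rw [hc]; ring⟩ (Dvd.dvd.mul_left (dvd_sum fun k hk => ?_) _)) (dvd_sum fun k hk => ?_))
  · obtain ⟨a, ha⟩ := D.hd k (mem_range.1 hk)
    exact ⟨c M x k * (2 * a ^ 3 + (2 * M - 3) * π * a ^ 4), by rw [ha]; ring⟩
  · obtain ⟨a, ha⟩ := D.hd k (mem_range.1 hk)
    exact ⟨π ^ 2 * a ^ 5 * ρ k, by rw [ha]; ring⟩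

lemma Data.sym (D : Data π M h x t) (j : ℕ) (hj : j ≤ 2 * h) : π ^ 2 ∣ c M x (2 * h - j) - c M x j := by
  induction j with
  | zero =>
    obtain ⟨u, v, w, hc⟩ := D.cN
    exact ⟨(π ^ 2 * u + (M - 1) * π * v) * w, by rw [Nat.sub_zero, show c M x 0 = 1 from rfl, hc]; ring⟩
  | succ j ih =>
    obtain ⟨u, hu⟩ := ih (by omega)
    have r := D.refl j (by omega)
    obtain ⟨a, ha⟩ := D.hd j (by omega)
    obtain ⟨b, hb⟩ := D.hd (2 * h - 1 - j) (by omega)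
    obtain ⟨w, hw⟩ := sub_one_dvd_pow_sub_one ((1 + x (j + 1)) * (1 + x (2 * h - 1 - j + 1))) (2 * M)
    have e : (1 + x (j + 1)) * (1 + x (2 * h - 1 - j + 1)) - 1 = π ^ 2 * ((1 - M) * a * b) := by
      rw [ha, hb] at r ⊢; linear_combination r
    rw [e, mul_pow] at hw
    rw [show 2 * h - j = 2 * h - 1 - j + 1 by omega, c, prod_range_succ, ← c] at hu
    rw [show 2 * h - (j + 1) = 2 * h - 1 - j by omega, c.eq_1 M x (j + 1), prod_range_succ, ← c]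
    exact ⟨u * (1 + x (j + 1)) ^ (2 * M) - c M x (2 * h - 1 - j) * ((1 - M) * a * b * w), by
      linear_combination (1 + x (j + 1)) ^ (2 * M) * hu - c M x (2 * h - 1 - j) * hw⟩

lemma Data.thm2 (D : Data π M h x t) (hM : π ∣ M - 1) :
    t ^ 2 * π ^ 5 ∣ (2 * h : ℕ) * ∑ k ∈ range (2 * h + 1), (2 * k + 1 - t) * c M x k := by
  obtain ⟨ρ, hρ⟩ := key M (2 * h) x t D.hM D.hx
  obtain ⟨u, v, w, hc⟩ := D.cN
  obtain ⟨m, hm⟩ := hM
  have u12 : IsUnit (-12 : A) := by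
    refine isUnit_of_dvd_unit ⟨-3, ?_⟩ (D.u6.mul D.u6); norm_num
  rw [← u12.dvd_mul_left, show ∀ a b : A, -12 * (a * b) = 12 * (-a) * b from fun _ _ => by ring, hρ]
  refine mul_dvd_mul_left _ (dvd_sub (dvd_sub ⟨2 * m * (2 * M - 1) * (u + m * v) * w, by
    rw [hc, K]; push_cast; rw [hm]; ring⟩ (Dvd.dvd.mul_left ?_ _)) (dvd_sum fun k hk => ?_))
  · have : ∑ k ∈ range (2 * h), c M x k * (2 * x (k + 1) ^ 3 + (2 * M - 3) * x (k + 1) ^ 4) =
        ∑ k ∈ range (2 * h), (c M x k * (x (k + 1) ^ 3 + (2 * M - 3) * x (k + 1) ^ 4) +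
          c M x (2 * h - 1 - k) * x (2 * h - 1 - k + 1) ^ 3) := by
      rw [sum_add_distrib, sum_range_reflect (fun k => c M x k * x (k + 1) ^ 3), ← sum_add_distrib]
      exact sum_congr rfl fun k _ => by ring
    rw [this]
    refine dvd_sum fun k hk => ?_
    have hk := mem_range.1 hk
    obtain ⟨s, hs⟩ := D.sym (k + 1) hk
    obtain ⟨σ, hσ⟩ := expand (2 * M) (x (k + 1))
    have r := D.refl k hk
    obtain ⟨a, ha⟩ := D.hd k hk
    obtain ⟨b, hb⟩ := D.hd (2 * h - 1 - k) (by omega)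
    rw [show 2 * h - (k + 1) = 2 * h - 1 - k by omega, c.eq_1 M x (k + 1), prod_range_succ, ← c, hσ,
      sub_eq_iff_eq_add] at hs
    rw [hs, hb]
    rw [ha, hb] at r
    rw [ha]
    rcases eq_or_ne π 0 with rfl | hπ
    · simp
    have r' : b = -a - M * π * a * b := mul_left_cancel₀ hπ (by linear_combination r)
    have r2 : b = -a + M * π * a ^ 2 + π ^ 2 * (M ^ 2 * a ^ 2 * b) := by
      linear_combination (1 - M * π * a) * r'
    generalize (M : A) ^ 2 * a ^ 2 * b = e at r2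
    obtain ⟨g, hg⟩ : ∃ g, b ^ 3 = -a ^ 3 + 3 * M * π * a ^ 4 + π ^ 2 * g :=
      ⟨3 * a ^ 2 * e - 3 * a * (M * a ^ 2 + π * e) ^ 2 + π * (M * a ^ 2 + π * e) ^ 3, by rw [r2]; ring⟩
    rw [mul_pow π b, hg]
    push_cast
    generalize c M x k = γ
    refine ⟨3 * a ^ 4 * γ * m + γ * (1 + 2 * M * π * a) * g + 6 * γ * M ^ 2 * a ^ 5 +
      (s + γ * a ^ 2 * ((2 * M).choose 2 + (2 * M).choose 3 * (π * a) + (2 * M).choose 4 * (π * a) ^ 2
        + (2 * M).choose 5 * (π * a) ^ 3 + (2 * M).choose 6 * (π * a) ^ 4 + (π * a) ^ 5 * σ)) *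
        (-a ^ 3 + 3 * M * π * a ^ 4 + π ^ 2 * g), ?_⟩
    linear_combination 3 * π ^ 4 * a ^ 4 * γ * hm
  · obtain ⟨a, ha⟩ := D.hd k (mem_range.1 hk)
    exact ⟨a ^ 5 * ρ k, by rw [ha]; ring⟩

end Pool.Agent.H.MP_7fc841_nt
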