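import Mathlib
import Pool.Agent.H.MP_7fc841_nt.A

namespace Pool.Agent.H.MP_7fc841_nt

open Finset

variable {p : ℕ} [hp : Fact p.Prime]

lemma unit_nat {m : ℕ} (h : ¬ p ∣ m) : IsUnit (m : ℤ_[p]) :=
  PadicInt.isUnit_iff.2 (PadicInt.norm_natCast_eq_one_iff.2 ((hp.out.coprime_iff_not_dvd).2 h))

lemma den_cop (q : ℚ) (w : ℤ_[p]) (h : (q : ℚ_[p]) = w) : Nat.Coprime q.den p :=
  (PadicInt.norm_natCast_eq_one_iff.1 (PadicInt.isUnit_iff.1
    (PadicInt.isUnit_den q (h ▸ w.2)))).symm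

def Sig (n M : ℕ) : ℚ := ∑ k ∈ range n, (2 * k + (1 - n / M)) *
  ((∏ i ∈ range k, ((1 - n / M : ℚ) + i)) / k.factorial) ^ (2 * M)

lemma main (r M : ℕ) (h3 : 3 < p) (hr : 0 < r) (hM : ¬ p ∣ M) :
    (∃ w : ℤ_[p], (Sig (p ^ r) M : ℚ_[p]) = p ^ (2 * r + 3) * w) ∧
    (p ∣ M - 1 → ∃ w : ℤ_[p], (Sig (p ^ r) M : ℚ_[p]) = p ^ (2 * r + 5) * w) := by
  obtain ⟨μ, hμ⟩ := (unit_nat hM).exists_right_inv
  obtain ⟨h, hh⟩ : Odd (p ^ r) := (hp.out.odd_of_ne_two (by omega)).pow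
  have ex : ∀ j : ℕ, ∃ y : ℤ_[p], 0 < j → j < p ^ r → j * y = -(μ * p ^ r) ∧ (p : ℤ_[p]) ∣ y := by
    intro j
    rcases j.eq_zero_or_pos with rfl | h0
    · exact ⟨0, by simp⟩
    obtain ⟨e, u, hu, rfl⟩ := Nat.exists_eq_pow_mul_and_not_dvd h0.ne' p hp.out.ne_one
    obtain ⟨v, hv⟩ := (unit_nat hu).exists_right_inv
    refine ⟨-(μ * v * p ^ (r - e)), fun _ h1 => ?_⟩
    have : e < r := (Nat.pow_lt_pow_iff_right hp.out.one_lt).1
      ((Nat.le_mul_of_pos_right _ (Nat.pos_of_mul_pos_left h0)).trans_lt h1)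
    refine ⟨?_, (Dvd.dvd.mul_left (dvd_pow_self _ (by omega)) _).neg_right⟩
    rw [← pow_sub_mul_pow (p : ℤ_[p]) this.le]
    push_cast
    linear_combination (-(μ * p ^ (r - e) * p ^ e)) * hv
  choose x hx using ex
  have hh' : (p : ℤ_[p]) ^ r = (2 * h : ℕ) + 1 := by exact_mod_cast congrArg (Nat.cast : ℕ → ℤ_[p]) hh
  have D : Data (p : ℤ_[p]) M h x (μ * p ^ r) :=
    ⟨by rw [← mul_assoc, hμ, one_mul, hh'],
      fun j hj => by exact_mod_cast (hx (j + 1) (by omega) (by omega)).1,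
      fun j hj => (hx (j + 1) (by omega) (by omega)).2, by
      exact_mod_cast unit_nat (m := 6) fun h6 => by
        have := Nat.le_of_dvd (by norm_num) h6
        have := hp.out
        interval_cases p <;> simp_all (config := {decide := true})⟩
  have uh : IsUnit ((2 * h : ℕ) : ℤ_[p]) := unit_nat fun h1 => hp.out.one_lt.ne'
    (Nat.dvd_one.1 ((Nat.dvd_add_right h1).1 (hh ▸ dvd_pow_self p hr.ne')))
  have M0 : (M : ℚ_[p]) ≠ 0 := Nat.cast_ne_zero.2 fun h => hM (h ▸ dvd_zero p)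
  have ht : ((μ : ℚ_[p]) * p ^ r) = p ^ r / M := by
    have := congrArg (PadicInt.Coe.ringHom (p := p)) hμ
    change (M : ℚ_[p]) * μ = 1 at this
    rw [eq_div_iff M0]
    linear_combination (p : ℚ_[p]) ^ r * this
  have e : (Sig (p ^ r) M : ℚ_[p]) =
      (∑ k ∈ range (2 * h + 1), (2 * k + 1 - μ * p ^ r) * c M x k : ℤ_[p]) := by
    rw [Sig, ← hh]
    change _ = PadicInt.Coe.ringHom _
    simp only [map_sum, map_mul, map_add, map_sub, map_pow, map_natCast, map_ofNat, map_one, c,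
      map_prod]
    push_cast
    refine sum_congr rfl fun k hk => ?_
    have hk := mem_range.1 hk
    change _ = (2 * k + 1 - (μ : ℚ_[p]) * p ^ r) * ∏ j ∈ range k, (1 + (x (j + 1) : ℚ_[p])) ^ (2 * M)
    rw [ht, add_sub_assoc, prod_pow, ← prod_range_add_one_eq_factorial]
    push_cast
    rw [← prod_div_distrib]
    congr 2
    refine prod_congr rfl fun j hj => ?_
    have := congrArg (PadicInt.Coe.ringHom (p := p))
      (hx (j + 1) (by omega) (by have := mem_range.1 hj; omega)).1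
    change ((j + 1 : ℕ) : ℚ_[p]) * x (j + 1) = -(μ * p ^ r) at this
    rw [ht] at this
    push_cast at this
    rw [div_eq_iff (Nat.cast_add_one_ne_zero j)]
    linear_combination -this
  constructor
  · obtain ⟨w, hw⟩ := uh.dvd_mul_left.1 D.thm1
    exact ⟨μ ^ 2 * w, by rw [e, hw]; push_cast; ring⟩
  · intro h1
    obtain ⟨w, hw⟩ := uh.dvd_mul_left.1 (D.thm2 (by
      obtain ⟨m, hm⟩ := h1
      have : M = p * m + 1 := by
        rcases M.eq_zero_or_pos with rfl | h0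
        · simp at hM
        · omega
      exact ⟨m, by rw [this]; push_cast; ring⟩))
    exact ⟨μ ^ 2 * w, by rw [e, hw]; push_cast; ring⟩

end Pool.Agent.H.MP_7fc841_nt
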